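import Pool.Agent.Y434.U557.Abs

/-!
# Coefficients of the restriction of a bihomogeneous form to a curve: bounds for one absolute
value (adapted from `Pool.Agent.Y434.U557.Abs`)
-/

set_option autoImplicit false

namespace Pool.Agent.Y37.U557

open Finset Polynomial
open Pool.Agent.Y434.U557 (Bd one_bd na_sum na_mul ar_mul prod_bd)

variable {K : Type} [Field K] {n₁ n₂ : ℕ}

/-- the weights of the two groups of variables -/
abbrev wts (n₁ n₂ : ℕ) : Fin n₁ ⊕ Fin n₂ → ℕ × ℕ :=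
  Sum.elim (fun _ : Fin n₁ => ((1, 0) : ℕ × ℕ)) (fun _ : Fin n₂ => ((0, 1) : ℕ × ℕ))

theorem supp_sum2 (F : MvPolynomial (Fin n₁ ⊕ Fin n₂) K) (q r : ℕ)
    (hF : F.IsWeightedHomogeneous (wts n₁ n₂) (q, r)) (s : Fin n₁ ⊕ Fin n₂ →₀ ℕ)
    (hs : s ∈ F.support) : ∑ i, s (Sum.inl i) = q ∧ ∑ j, s (Sum.inr j) = r := by
  have h1 := hF (MvPolynomial.mem_support_iff.1 hs)
  rw [Finsupp.weight_apply, Finsupp.sum_fintype _ _ (fun i => by simp), Fintype.sum_sum_type] at h1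
  simp only [wts, Sum.elim_inl, Sum.elim_inr] at h1
  have h2 := congrArg Prod.fst h1
  have h3 := congrArg Prod.snd h1
  simp only [Prod.fst_add, Prod.snd_add, Prod.fst_sum, Prod.snd_sum, Prod.smul_mk, smul_eq_mul,
    mul_one, mul_zero, Finset.sum_const_zero, add_zero, zero_add] at h2 h3
  exact ⟨h2, h3⟩

theorem supp_card2 (F : MvPolynomial (Fin n₁ ⊕ Fin n₂) K) (q r : ℕ)
    (hF : F.IsWeightedHomogeneous (wts n₁ n₂) (q, r)) :
    F.support.card ≤ (q + r + 1) ^ (n₁ + n₂) := by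
  have h0 : ∀ s ∈ F.support, ∀ i, s i < q + r + 1 := by
    intro s hs i
    obtain ⟨h1, h2⟩ := supp_sum2 F q r hF s hs
    rcases i with i | i
    · have := Finset.single_le_sum (f := fun i => s (Sum.inl i)) (fun _ _ => Nat.zero_le _)
        (mem_univ i)
      omega
    · have := Finset.single_le_sum (f := fun i => s (Sum.inr i)) (fun _ _ => Nat.zero_le _)
        (mem_univ i)
      omega
  have h3 : (q + r + 1) ^ (n₁ + n₂) =
      (Fintype.piFinset fun _ : Fin n₁ ⊕ Fin n₂ => range (q + r + 1)).card := by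
    rw [Fintype.card_piFinset]
    simp
  rw [h3]
  refine Finset.card_le_card_of_injOn (fun s => (s : Fin n₁ ⊕ Fin n₂ → ℕ)) ?_ ?_
  · intro s hs
    simp only [Finset.mem_coe, Fintype.mem_piFinset, mem_range]
    exact h0 s hs
  · intro s _ t _ h
    exact DFunLike.coe_injective h

theorem aeval_eq2 (f : Fin n₁ → K[X]) (g : Fin n₂ → K[X])
    (F : MvPolynomial (Fin n₁ ⊕ Fin n₂) K) :
    MvPolynomial.aeval (Sum.elim f g) F =
      ∑ s ∈ F.support, Polynomial.C (F.coeff s) *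
        ((∏ i, f i ^ s (Sum.inl i)) * ∏ j, g j ^ s (Sum.inr j)) := by
  rw [MvPolynomial.aeval_def, MvPolynomial.eval₂_eq']
  refine Finset.sum_congr rfl fun s _ => ?_
  rw [Polynomial.algebraMap_apply, Algebra.algebraMap_self, RingHom.id_apply,
    Fintype.prod_sum_type]
  simp only [Sum.elim_inl, Sum.elim_inr]

theorem deg_prod {n : ℕ} (f : Fin n → K[X]) (m : ℕ) (hd : ∀ i, (f i).natDegree ≤ m)
    (s : Fin n → ℕ) : (∏ i, f i ^ s i).natDegree ≤ m * ∑ i, s i := by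
  refine (Polynomial.natDegree_prod_le _ _).trans ?_
  rw [Finset.mul_sum]
  refine Finset.sum_le_sum fun i _ => ?_
  refine Polynomial.natDegree_pow_le.trans ?_
  rw [mul_comm]
  exact Nat.mul_le_mul_right _ (hd i)

theorem deg_comp2 (f : Fin n₁ → K[X]) (g : Fin n₂ → K[X]) (a b : ℕ)
    (hf : ∀ i, (f i).natDegree ≤ a) (hg : ∀ i, (g i).natDegree ≤ b)
    (F : MvPolynomial (Fin n₁ ⊕ Fin n₂) K) (q r : ℕ)
    (hF : F.IsWeightedHomogeneous (wts n₁ n₂) (q, r)) :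
    (MvPolynomial.aeval (Sum.elim f g) F).natDegree ≤ a * q + b * r := by
  rw [aeval_eq2]
  refine Polynomial.natDegree_sum_le_of_forall_le _ _ fun s hs => ?_
  obtain ⟨h1, h2⟩ := supp_sum2 F q r hF s hs
  refine (Polynomial.natDegree_C_mul_le _ _).trans (Polynomial.natDegree_mul_le.trans ?_)
  have h3 := deg_prod f a hf (fun i => s (Sum.inl i))
  have h4 := deg_prod g b hg (fun i => s (Sum.inr i))
  rw [h1] at h3
  rw [h2] at h4
  exact Nat.add_le_add h3 h4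

theorem na_comp2 (α : AbsoluteValue K ℝ) (h : ∀ x y, α (x + y) ≤ max (α x) (α y))
    (f : Fin n₁ → K[X]) (g : Fin n₂ → K[X]) (F : MvPolynomial (Fin n₁ ⊕ Fin n₂) K) (q r : ℕ)
    (hF : F.IsWeightedHomogeneous (wts n₁ n₂) (q, r)) (b₁ b₂ c : ℝ)
    (hb₁ : 0 ≤ b₁) (hb₂ : 0 ≤ b₂) (hc : 0 ≤ c) (hf : ∀ i, Bd α b₁ (f i))
    (hg : ∀ i, Bd α b₂ (g i)) (hcF : ∀ s ∈ F.support, α (F.coeff s) ≤ c)
    (k : ℕ) : α ((MvPolynomial.aeval (Sum.elim f g) F).coeff k) ≤ c * b₁ ^ q * b₂ ^ r := by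
  rw [aeval_eq2, Polynomial.finsetSum_coeff]
  refine na_sum α h _ _ _ (by positivity) fun s hs => ?_
  obtain ⟨e1, e2⟩ := supp_sum2 F q r hF s hs
  rw [Polynomial.coeff_C_mul, map_mul]
  have h1 := prod_bd α (Finset.univ.sup fun i => (f i).natDegree) 1 zero_le_one
    (fun g f b b' _ hb hb' hg hf => na_mul α h g f b b' hb hb' hg hf) f
    (fun i => Finset.le_sup (f := fun i => (f i).natDegree) (mem_univ i)) b₁ hb₁ hf
    (fun i => s (Sum.inl i)) univ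
  have h2 := prod_bd α (Finset.univ.sup fun i => (g i).natDegree) 1 zero_le_one
    (fun g f b b' _ hb hb' hg hf => na_mul α h g f b b' hb hb' hg hf) g
    (fun i => Finset.le_sup (f := fun i => (g i).natDegree) (mem_univ i)) b₂ hb₂ hg
    (fun i => s (Sum.inr i)) univ
  rw [e1, one_mul] at h1
  rw [e2, one_mul] at h2
  have h3 := na_mul α h _ _ _ _ (pow_nonneg hb₁ q) (pow_nonneg hb₂ r) h1 h2 k
  rw [one_mul] at h3
  rw [mul_assoc]
  exact mul_le_mul (hcF s hs) h3 (α.nonneg _) hc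

theorem ar_comp2 (α : AbsoluteValue K ℝ) (a b : ℕ)
    (f : Fin n₁ → K[X]) (g : Fin n₂ → K[X])
    (hdf : ∀ i, (f i).natDegree ≤ a) (hdg : ∀ i, (g i).natDegree ≤ b)
    (F : MvPolynomial (Fin n₁ ⊕ Fin n₂) K) (q r : ℕ)
    (hF : F.IsWeightedHomogeneous (wts n₁ n₂) (q, r)) (b₁ b₂ c : ℝ)
    (hb₁ : 0 ≤ b₁) (hb₂ : 0 ≤ b₂) (hc : 0 ≤ c) (hf : ∀ i, Bd α b₁ (f i))
    (hg : ∀ i, Bd α b₂ (g i)) (hcF : ∀ s ∈ F.support, α (F.coeff s) ≤ c)
    (k : ℕ) : α ((MvPolynomial.aeval (Sum.elim f g) F).coeff k) ≤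
      (((q : ℝ) + r + 1) ^ (n₁ + n₂) * (((a : ℝ) + 1) ^ q * (((b * r : ℕ) : ℝ) + 1) *
        ((b : ℝ) + 1) ^ r)) * (c * b₁ ^ q * b₂ ^ r) := by
  rw [aeval_eq2, Polynomial.finsetSum_coeff]
  have h0 : ∀ s ∈ F.support, α ((Polynomial.C (F.coeff s) *
        ((∏ i, f i ^ s (Sum.inl i)) * ∏ j, g j ^ s (Sum.inr j))).coeff k) ≤
      c * ((((a : ℝ) + 1) * b₁) ^ q * ((((b * r : ℕ) : ℝ) + 1) * (((b : ℝ) + 1) * b₂) ^ r)) := by
    intro s hs
    obtain ⟨e1, e2⟩ := supp_sum2 F q r hF s hs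
    rw [Polynomial.coeff_C_mul, map_mul]
    have h1 := prod_bd α a ((a : ℝ) + 1) (by positivity)
      (fun g f b b' hd hb hb' hg hf => ar_mul α a g f hd b b' hb hb' hg hf) f hdf b₁ hb₁ hf
      (fun i => s (Sum.inl i)) univ
    have h2 := prod_bd α b ((b : ℝ) + 1) (by positivity)
      (fun g f b' b'' hd hb hb' hg hf => ar_mul α b g f hd b' b'' hb hb' hg hf) g hdg b₂ hb₂ hg
      (fun i => s (Sum.inr i)) univ
    have hdeg := deg_prod g b hdg (fun i => s (Sum.inr i))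
    rw [e1] at h1
    rw [e2] at h2 hdeg
    have h3 := ar_mul α (b * r) _ _ hdeg _ _ (by positivity) (by positivity) h1 h2 k
    exact mul_le_mul (hcF s hs) h3 (α.nonneg _) hc
  calc α (∑ s ∈ F.support, (Polynomial.C (F.coeff s) *
        ((∏ i, f i ^ s (Sum.inl i)) * ∏ j, g j ^ s (Sum.inr j))).coeff k)
      ≤ ∑ s ∈ F.support, α ((Polynomial.C (F.coeff s) *
        ((∏ i, f i ^ s (Sum.inl i)) * ∏ j, g j ^ s (Sum.inr j))).coeff k) := α.sum_le _ _
    _ ≤ ∑ s ∈ F.support, c * ((((a : ℝ) + 1) * b₁) ^ q *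
          ((((b * r : ℕ) : ℝ) + 1) * (((b : ℝ) + 1) * b₂) ^ r)) := Finset.sum_le_sum h0
    _ = F.support.card * (c * ((((a : ℝ) + 1) * b₁) ^ q *
          ((((b * r : ℕ) : ℝ) + 1) * (((b : ℝ) + 1) * b₂) ^ r))) := by
        rw [Finset.sum_const, nsmul_eq_mul]
    _ ≤ ((q : ℝ) + r + 1) ^ (n₁ + n₂) * (c * ((((a : ℝ) + 1) * b₁) ^ q *
          ((((b * r : ℕ) : ℝ) + 1) * (((b : ℝ) + 1) * b₂) ^ r))) := by
        refine mul_le_mul_of_nonneg_right ?_ (by positivity)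
        exact_mod_cast supp_card2 F q r hF
    _ = _ := by
        rw [mul_pow, mul_pow]
        ring

end Pool.Agent.Y37.U557
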