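import Pool.Agent.Y557.U.Stm3
import Pool.Agent.Y37.U557.Abs2

/-!
# Coefficients of the restriction of a bihomogeneous form to a curve (job Y557-UNI-8)
-/

set_option autoImplicit false

namespace Pool.Agent.Y37.U557

open NumberField IsDedekindDomain Finset Polynomial
open Pool.Agent.H691R3 Pool.Agent.TH876.Loc
open Pool.Agent.Y557.U
open Pool.Agent.Y434.U557 (Bd)

theorem comp2_holds (K : Type) [Field K] [NumberField K] : S_COMP2 K := by
  intro n₁ n₂ a b q r
  refine ⟨((q : ℝ) + r + 1) ^ (n₁ + n₂) * (((a : ℝ) + 1) ^ q * (((b * r : ℕ) : ℝ) + 1) *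
        ((b : ℝ) + 1) ^ r), ?_, ?_⟩
  · have h1 : ∀ x : ℕ, (1 : ℝ) ≤ (x : ℝ) + 1 := fun x => by
      have := Nat.cast_nonneg (α := ℝ) x
      linarith
    have h2 : (1 : ℝ) ≤ (q : ℝ) + r + 1 := by
      have := Nat.cast_nonneg (α := ℝ) q
      have := Nat.cast_nonneg (α := ℝ) r
      linarith
    exact one_le_mul_of_one_le_of_one_le (one_le_pow₀ h2)
      (one_le_mul_of_one_le_of_one_le
        (one_le_mul_of_one_le_of_one_le (one_le_pow₀ (h1 a)) (h1 _)) (one_le_pow₀ (h1 b)))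
  · intro f g F hdf hdg hF
    have hb : ∀ (n m : ℕ) (f : Fin n → K[X]) (α : AbsoluteValue K ℝ),
        0 ≤ ⨆ p : Fin n × Fin (m + 1), α (cf f m p) := fun n m f α =>
      Real.iSup_nonneg fun p => α.nonneg _
    have hc : ∀ α : AbsoluteValue K ℝ, 0 ≤ ⨆ s, α (cF2 F s) := fun α =>
      Real.iSup_nonneg fun p => α.nonneg _
    have hbd : ∀ (n m : ℕ) (f : Fin n → K[X]) (_ : ∀ i, (f i).natDegree ≤ m)
        (α : AbsoluteValue K ℝ) (i : Fin n),
        Bd α (⨆ p : Fin n × Fin (m + 1), α (cf f m p)) (f i) := by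
      intro n m f hd α i k
      by_cases hk : k ≤ m
      · exact le_ciSup (f := fun p : Fin n × Fin (m + 1) => α (cf f m p))
          (Set.finite_range _).bddAbove (i, ⟨k, by omega⟩)
      · have h3 : (f i).coeff k = 0 := Polynomial.coeff_eq_zero_of_natDegree_lt (by
          have := hd i
          omega)
        rw [h3, map_zero]
        exact hb n m f α
    have hcf : ∀ (α : AbsoluteValue K ℝ), ∀ s ∈ F.support, α (F.coeff s) ≤ ⨆ s, α (cF2 F s) := by
      intro α s hs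
      exact le_ciSup (f := fun s => α (cF2 F s)) (Set.finite_range _).bddAbove ⟨s, hs⟩
    refine ⟨deg_comp2 f g a b hdf hdg F q r hF, fun v k => ?_, fun w k => ?_⟩
    · exact na_comp2 (fv v) (fv_na v) f g F q r hF _ _ _ (hb _ _ f (fv v)) (hb _ _ g (fv v))
        (hc (fv v)) (hbd _ _ f hdf (fv v)) (hbd _ _ g hdg (fv v)) (hcf (fv v)) k
    · exact ar_comp2 w.1 a b f g hdf hdg F q r hF _ _ _ (hb _ _ f w.1) (hb _ _ g w.1)
        (hc w.1) (hbd _ _ f hdf w.1) (hbd _ _ g hdg w.1) (hcf w.1) k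

end Pool.Agent.Y37.U557
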